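import Pool.Agent.W500.FL.Stm

set_option autoImplicit false

namespace Pool.Agent.W405.FL.J

open Polynomial Pool.Agent.W500.FL

lemma res_deg {K : Type} [Field K] (f a : K[X]) (hf : f.Monic) (N : ℕ) (hN : a.natDegree ≤ N) :
    resultant f a f.natDegree N = resultant f a := by
  obtain ⟨k, rfl⟩ := Nat.exists_eq_add_of_le hN
  rw [resultant_add_right_deg f a f.natDegree a.natDegree k le_rfl, hf.coeff_natDegree, one_pow,
    one_mul]

theorem main : S_J := by
  intro K _ _ _
  refine ⟨?_, ?_, ?_, ?_, ?_, ?_, ?_⟩
  · intro f a b hf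
    unfold jac
    rw [← map_mul, ← res_deg f (a * b) hf (a.natDegree + b.natDegree) natDegree_mul_le,
      resultant_mul_right f a b _ le_rfl]
  · intro f g a hf hg
    unfold jac
    rw [← map_mul, ← resultant_mul_left f g a _ le_rfl, hf.natDegree_mul hg]
  · intro f a b hf h
    obtain ⟨k, hk⟩ := h
    have ha : a = b + f * k := by rw [← hk]; ring
    unfold jac
    have h1 := res_deg f a hf (a.natDegree + b.natDegree + (k.natDegree + f.natDegree)) (by omega)
    have h2 := res_deg f b hf (a.natDegree + b.natDegree + (k.natDegree + f.natDegree)) (by omega)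
    rw [← h1, ← h2]
    have h3 := resultant_add_mul_right f b k f.natDegree
      (a.natDegree + b.natDegree + (k.natDegree + f.natDegree)) (by omega) le_rfl
    rw [← ha] at h3
    rw [h3]
  · intro f c _
    unfold jac
    rw [natDegree_C, resultant_C_zero_right, map_pow]
  · intro f g _ _
    unfold jac
    rw [resultant_comm, map_mul, map_pow]
  · intro f a hf
    unfold jac
    rw [← isUnit_resultant_iff_isCoprime hf, isUnit_iff_ne_zero, Ne, quadraticChar_eq_zero_iff]
  · intro f a h
    unfold jac at h ⊢
    rw [Ne, quadraticChar_eq_zero_iff] at h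
    exact quadraticChar_dichotomy h

end Pool.Agent.W405.FL.J
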